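import Pool.Agent.Helper6K1.BN.Engine
import Pool.Agent.H622R2.CoNP

/-!
# Error reduction for `BPP`

With the definitions of `Helper6K1/BN/Defs.lean`: a language in `BPP` has a polynomial-time machine
whose probability of error is at most `(1 / 2) ^ q |x|`, for every polynomial `q` (the majority of
the answers for `12 q |x|` blocks of random bits).
-/

set_option autoImplicit false

namespace Pool.Agent.Helper24.BppAmp

open Finset BigOperators Pool.Agent.NPC Pool.Agent.Helper6K1.BN
open Pool.Agent.H579R2.Spt (BL mem_BL rowsL rowsL_poly)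

/-- the moment generating function of the number of the blocks with a property -/
theorem expect_two (n i : ℕ) (W : List Bool → Bool) :
    𝔼 l ∈ BLL n i, (2 : ℝ) ^ (l.filter W).length =
      (𝔼 u ∈ BL n, (if W u then (2 : ℝ) else 1)) ^ i := by
  induction i with
  | zero => rw [expect_BLL_zero]; simp
  | succ i ih =>
    rw [expect_BLL_succ, pow_succ, ← ih]
    have h1 : ∀ u ∈ BL n, 𝔼 l ∈ BLL n i, (2 : ℝ) ^ ((u :: l).filter W).length =
        (𝔼 l ∈ BLL n i, (2 : ℝ) ^ (l.filter W).length) * (if W u then (2 : ℝ) else 1) := by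
      intro u _
      rw [expect_mul]
      refine expect_congr rfl fun l _ => ?_
      cases h : W u <;> simp [h, pow_succ]
    rw [expect_congr rfl h1, ← mul_expect]

/-- Chernoff's bound for `12 k` blocks and error `1 / 3`. -/
theorem chernoff (n k : ℕ) (W : List Bool → Bool)
    (hW : 𝔼 u ∈ BL n, (if W u then (1 : ℝ) else 0) ≤ 1 / 3) :
    𝔼 l ∈ BLL n (12 * k), (if 6 * k ≤ (l.filter W).length then (1 : ℝ) else 0) ≤ (1 / 2) ^ k := by
  set z : ℝ := 𝔼 u ∈ BL n, (if W u then (2 : ℝ) else 1) with hz
  have hz1 : z ≤ 4 / 3 := by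
    have h1 : z = 1 + 𝔼 u ∈ BL n, (if W u then (1 : ℝ) else 0) := by
      rw [hz, ← expect_const (BL_nonempty n) (1 : ℝ), ← expect_add_distrib]
      refine expect_congr rfl fun u _ => ?_
      rw [expect_const (BL_nonempty n)]
      cases W u <;> norm_num
    linarith
  have hz0 : 0 ≤ z := expect_nonneg fun u _ => by split_ifs <;> norm_num
  have h2 : 𝔼 l ∈ BLL n (12 * k), (if 6 * k ≤ (l.filter W).length then (1 : ℝ) else 0) ≤
      𝔼 l ∈ BLL n (12 * k), (2 : ℝ) ^ (l.filter W).length / 2 ^ (6 * k) := by
    refine expect_le_expect fun l _ => ?_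
    split_ifs with h
    · rw [le_div_iff₀ (by positivity), one_mul]
      exact pow_le_pow_right₀ (by norm_num) h
    · positivity
  refine h2.trans ?_
  rw [← expect_div, expect_two, ← hz, div_le_iff₀ (by positivity)]
  calc z ^ (12 * k) ≤ (4 / 3) ^ (12 * k) := pow_le_pow_left₀ hz0 hz1 _
    _ = ((4 / 3 : ℝ) ^ 12) ^ k := by rw [pow_mul]
    _ ≤ (1 / 2 * 2 ^ 6) ^ k := pow_le_pow_left₀ (by positivity) (by norm_num) _
    _ = (1 / 2) ^ k * 2 ^ (6 * k) := by rw [mul_pow, pow_mul]

section

variable (V0 : List Bool → List Bool) (p q : Polynomial ℕ)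

/-- the majority of the answers -/
def maj (x r : List Bool) : Bool :=
  decide (6 * q.eval x.length ≤ ((rowsL (p.eval x.length) (12 * q.eval x.length) r).filter
    fun u => decide (V0 (pairBits x u) = [true])).length)

/-- the machine -/
def MM (y : List Bool) : Bool := maj V0 p q (unpair y).1 (unpair y).2

variable {V0 p q}

theorem MM_poly (hV0 : PolyTime V0) : Poly (MM V0 p q) := by
  have e1 : Poly (fun y : List Bool => (unpair y).1) := NPC.Poly.fst poly_unpair
  have e2 : Poly (fun y : List Bool => (unpair y).2) := NPC.Poly.snd poly_unpair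
  have e3 : UPoly (fun y : List Bool => p.eval (unpair y).1.length) := (UPoly.length e1).eval p
  have e4 : UPoly (fun y : List Bool => q.eval (unpair y).1.length) := (UPoly.length e1).eval q
  have e5 : UPoly (fun y : List Bool => 12 * q.eval (unpair y).1.length) := (UPoly.const 12).mul e4
  have e6 : UPoly (fun y : List Bool => 6 * q.eval (unpair y).1.length) := (UPoly.const 6).mul e4
  have e7 : Poly (fun y : List Bool => rowsL (p.eval (unpair y).1.length)
      (12 * q.eval (unpair y).1.length) (unpair y).2) := rowsL_poly e3.toPoly e5 e2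
  have e8 : Poly (fun z : List Bool × List Bool =>
      decide (V0 (pairBits (unpair z.1).1 z.2) = [true])) := by
    refine Poly.decide_eq ((H622R2.poly_of_polyTime hV0).comp (H622R2.poly_pairBits
      (x := fun z : List Bool × List Bool => (unpair z.1).1) (w := fun z => z.2)
      (e1.comp (NPC.Poly.fst NPC.Poly.id)) (NPC.Poly.snd NPC.Poly.id))) (NPC.Poly.const _)
  have e9 : Poly (fun y : List Bool => (rowsL (p.eval (unpair y).1.length)
      (12 * q.eval (unpair y).1.length) (unpair y).2).filter
        fun u => decide (V0 (pairBits (unpair y).1 u) = [true])) :=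
    NPC.Poly.filter (l := fun y : List Bool => rowsL (p.eval (unpair y).1.length)
      (12 * q.eval (unpair y).1.length) (unpair y).2)
      (p := fun y u => decide (V0 (pairBits (unpair y).1 u) = [true])) e7 e8
  exact Poly.decide_le e6.toPoly (NPC.Poly.length e9)

theorem length_filter_not {α : Type} (l : List α) (P : α → Bool) :
    (l.filter P).length + (l.filter fun a => !P a).length = l.length := by
  induction l with
  | nil => rfl
  | cons a l ih => cases h : P a <;> simp [h] <;> omega

open Classical in
/-- If the majority is wrong then half of the blocks are. -/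
theorem wrong {L : Set (List Bool)} {x r : List Bool}
    (h : ¬ (maj V0 p q x r = true ↔ x ∈ L)) :
    6 * q.eval x.length ≤ ((rowsL (p.eval x.length) (12 * q.eval x.length) r).filter
      fun u => decide (¬ (V0 (pairBits x u) = [true] ↔ x ∈ L))).length := by
  unfold maj at h
  rw [decide_eq_true_iff] at h
  have hl := rowsL_length (p.eval x.length) (12 * q.eval x.length) r
  by_cases hx : x ∈ L
  · simp only [hx, iff_true, not_le] at h
    have h1 := length_filter_not (rowsL (p.eval x.length) (12 * q.eval x.length) r)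
      (fun u => decide (V0 (pairBits x u) = [true]))
    have h2 : ((rowsL (p.eval x.length) (12 * q.eval x.length) r).filter
        fun u => decide (¬ (V0 (pairBits x u) = [true] ↔ x ∈ L))) =
        (rowsL (p.eval x.length) (12 * q.eval x.length) r).filter
        fun u => !decide (V0 (pairBits x u) = [true]) := by
      refine List.filter_congr fun u _ => ?_
      simp [hx]
    rw [h2]
    omega
  · simp only [hx, iff_false, not_not] at h
    have h2 : ((rowsL (p.eval x.length) (12 * q.eval x.length) r).filter
        fun u => decide (¬ (V0 (pairBits x u) = [true] ↔ x ∈ L))) =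
        (rowsL (p.eval x.length) (12 * q.eval x.length) r).filter
        fun u => decide (V0 (pairBits x u) = [true]) := by
      refine List.filter_congr fun u _ => ?_
      simp [hx]
    rw [h2]
    exact h

theorem prob_add {n : ℕ} {P : List Bool → Prop} {W : List Bool → Bool}
    (h : ∀ u, W u = true ↔ ¬ P u) :
    𝔼 u ∈ BL n, (if W u then (1 : ℝ) else 0) + prob n P = 1 := by
  classical
  rw [prob_eq, ← expect_add_distrib, ← expect_const (BL_nonempty n) (1 : ℝ)]
  refine expect_congr rfl fun u _ => ?_
  rw [expect_const (BL_nonempty _)]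
  by_cases h2 : P u
  · have h3 : ¬ W u = true := fun h4 => (h u).1 h4 h2
    rw [if_pos h2, if_neg h3]; norm_num
  · rw [if_neg h2, if_pos ((h u).2 h2)]; norm_num

theorem one_le {n : ℕ} {P F : List Bool → Prop} [DecidablePred F] (h : ∀ r, ¬ P r → F r) :
    (1 : ℝ) ≤ 𝔼 r ∈ BL n, (if F r then (1 : ℝ) else 0) + prob n P := by
  classical
  rw [prob_eq, ← expect_add_distrib]
  refine le_expect (BL_nonempty _) fun r _ => ?_
  by_cases h7 : P r
  · rw [if_pos h7]; split_ifs <;> norm_num
  · rw [if_pos (h r h7), if_neg h7]
    norm_num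

theorem maj_prob {L : Set (List Bool)} {x : List Bool}
    (h : 2 / 3 ≤ prob (p.eval x.length) fun r => V0 (pairBits x r) = [true] ↔ x ∈ L) :
    1 - (1 / 2 : ℝ) ^ q.eval x.length ≤
      prob ((12 * q * p).eval x.length) fun r => [MM V0 p q (pairBits x r)] = [true] ↔ x ∈ L := by
  classical
  set W : List Bool → Bool := fun u => decide (¬ (V0 (pairBits x u) = [true] ↔ x ∈ L)) with hWd
  have hW : 𝔼 u ∈ BL (p.eval x.length), (if W u then (1 : ℝ) else 0) ≤ 1 / 3 := by
    have h1 := prob_add (n := p.eval x.length)
      (P := fun r => V0 (pairBits x r) = [true] ↔ x ∈ L) (W := W)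
      (fun u => by simp only [hWd, decide_eq_true_iff])
    linarith
  have h3 := chernoff (p.eval x.length) (q.eval x.length) W hW
  have h4 := expect_rows (p.eval x.length) (12 * q.eval x.length) 0
    (fun l _ => if 6 * q.eval x.length ≤ (l.filter W).length then (1 : ℝ) else 0)
  have h5 : ∀ l ∈ BLL (p.eval x.length) (12 * q.eval x.length), 𝔼 v ∈ BL 0,
      (if 6 * q.eval x.length ≤ (l.filter W).length then (1 : ℝ) else 0) =
      if 6 * q.eval x.length ≤ (l.filter W).length then (1 : ℝ) else 0 := fun l _ => by
    rw [expect_BL_zero]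
  rw [expect_congr rfl h5, Nat.add_zero] at h4
  have hn : (12 * q * p).eval x.length = 12 * q.eval x.length * p.eval x.length := by
    simp [Polynomial.eval_mul]
  rw [hn]
  have h6 := one_le (n := 12 * q.eval x.length * p.eval x.length)
    (P := fun r => [MM V0 p q (pairBits x r)] = [true] ↔ x ∈ L)
    (F := fun r => 6 * q.eval x.length ≤
      ((rowsL (p.eval x.length) (12 * q.eval x.length) r).filter W).length) (fun r h7 => by
      have h8 : ¬ (maj V0 p q x r = true ↔ x ∈ L) := by
        rw [MM, unpair_pairBits] at h7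
        simpa using h7
      exact wrong h8)
  rw [h4] at h6
  linarith

end

/-- **Error reduction**: the probability of error is at most `(1 / 2) ^ q |x|`. -/
theorem amp_poly {L : Set (List Bool)} (h : InBPP L) (q : Polynomial ℕ) :
    ∃ (V : List Bool → List Bool) (ρ : Polynomial ℕ), PolyTime V ∧ ∀ x : List Bool,
      1 - (1 / 2 : ℝ) ^ q.eval x.length ≤
        prob (ρ.eval x.length) fun r => V (pairBits x r) = [true] ↔ x ∈ L := by
  obtain ⟨V0, p, hV0, hL⟩ := h
  exact ⟨fun y => [MM V0 p q y], 12 * q * p, polyTime_of_poly (MM_poly hV0),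
    fun x => maj_prob (hL x)⟩

/-- **Error reduction**: the probability of error is at most `(1 / 2) ^ |x|`. -/
theorem amp {L : Set (List Bool)} (h : InBPP L) :
    ∃ (V : List Bool → List Bool) (ρ : Polynomial ℕ), PolyTime V ∧ ∀ x : List Bool,
      1 - (1 / 2 : ℝ) ^ x.length ≤
        prob (ρ.eval x.length) fun r => V (pairBits x r) = [true] ↔ x ∈ L := by
  obtain ⟨V, ρ, hV, hx⟩ := amp_poly h Polynomial.X
  refine ⟨V, ρ, hV, fun x => ?_⟩
  have := hx x
  rwa [Polynomial.eval_X] at this

end Pool.Agent.Helper24.BppAmp
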