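import Pool.Agent.Helper49.CA.Stm

/-!
# Random features for each length give cumulative random features
-/

set_option autoImplicit false

namespace Pool.Agent.Helper24.CA2

open Finset BigOperators Pool.Agent.NPC
open Pool.Agent.H579R2.Spt (BL mem_BL BL_zero take_poly' drop_poly')
open Pool.Agent.Helper6K1.BN
open Pool.Agent.Helper49.CA

/-- exactly one string of `t` bits has the value `l` -/
theorem expect_val (c : ℝ) : ∀ (t l : ℕ), l < 2 ^ t →
    𝔼 g ∈ BL t, (if valB g = l then c else 0) = c / 2 ^ t := by
  intro t
  induction t with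
  | zero =>
    intro l hl
    rw [expect_BL_zero]
    have : l = 0 := by omega
    subst this
    simp
  | succ t ih =>
    intro l hl
    rw [expect_BL_succ]
    have hl2 : l / 2 < 2 ^ t := by
      rw [pow_succ] at hl
      omega
    rcases Nat.even_or_odd l with he | ho
    · have h1 : ∀ r : List Bool, valB (true :: r) ≠ l := by
        intro r hr
        rw [valB_cons] at hr
        obtain ⟨k, hk⟩ := he
        simp at hr
        omega
      have h2 : ∀ r : List Bool, (valB (false :: r) = l) ↔ (valB r = l / 2) := by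
        intro r
        rw [valB_cons]
        obtain ⟨k, hk⟩ := he
        simp
        omega
      have e1 : 𝔼 r ∈ BL t, (if valB (true :: r) = l then c else 0) = 0 := by
        rw [expect_congr rfl fun r _ => if_neg (h1 r), expect_const_zero]
      have e2 : 𝔼 r ∈ BL t, (if valB (false :: r) = l then c else 0) = c / 2 ^ t := by
        rw [← ih (l / 2) hl2]
        exact expect_congr rfl fun r _ => if_congr (h2 r) rfl rfl
      rw [e1, e2, pow_succ]
      ring
    · have h1 : ∀ r : List Bool, valB (false :: r) ≠ l := by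
        intro r hr
        rw [valB_cons] at hr
        obtain ⟨k, hk⟩ := ho
        simp at hr
        omega
      have h2 : ∀ r : List Bool, (valB (true :: r) = l) ↔ (valB r = l / 2) := by
        intro r
        rw [valB_cons]
        obtain ⟨k, hk⟩ := ho
        simp
        omega
      have e1 : 𝔼 r ∈ BL t, (if valB (false :: r) = l then c else 0) = 0 := by
        rw [expect_congr rfl fun r _ => if_neg (h1 r), expect_const_zero]
      have e2 : 𝔼 r ∈ BL t, (if valB (true :: r) = l then c else 0) = c / 2 ^ t := by
        rw [← ih (l / 2) hl2]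
        exact expect_congr rfl fun r _ => if_congr (h2 r) rfl rfl
      rw [e1, e2, pow_succ]
      ring

/-- the three parts of the random string -/
theorem expect_parts (N R : ℕ) (K : List Bool → List Bool → List Bool → ℝ) :
    𝔼 r ∈ BL (N + (1 + R)), K (r.take N.size) ((r.drop N).take 1) ((r.drop N).drop 1) =
      𝔼 g ∈ BL N.size, (𝔼 z ∈ BL R, K g [true] z + 𝔼 z ∈ BL R, K g [false] z) / 2 := by
  have hsz : N.size ≤ N := Nat.size_le.2 Nat.lt_two_pow_self
  have h1 := expect_BL_split N (1 + R) fun u v => K (u.take N.size) (v.take 1) (v.drop 1)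
  have h2 : 𝔼 r ∈ BL (N + (1 + R)), K (r.take N.size) ((r.drop N).take 1) ((r.drop N).drop 1) =
      𝔼 r ∈ BL (N + (1 + R)), K ((r.take N).take N.size) ((r.drop N).take 1) ((r.drop N).drop 1) := by
    refine expect_congr rfl fun r _ => ?_
    rw [List.take_take, min_eq_left hsz]
  rw [h2, h1]
  have h3 : ∀ u : List Bool, 𝔼 v ∈ BL (1 + R), K (u.take N.size) (v.take 1) (v.drop 1) =
      (𝔼 z ∈ BL R, K (u.take N.size) [true] z + 𝔼 z ∈ BL R, K (u.take N.size) [false] z) / 2 := by
    intro u
    rw [expect_BL_split 1 R fun b z => K (u.take N.size) b z, expect_BL_one]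
  rw [expect_congr rfl fun u _ => h3 u]
  have h4 := expect_BL_take N.size (N - N.size) fun g =>
    (𝔼 z ∈ BL R, K g [true] z + 𝔼 z ∈ BL R, K g [false] z) / 2
  rw [Nat.add_sub_cancel' hsz] at h4
  exact h4

/-- the unused end of the random string -/
theorem expect_take_le {l N : ℕ} (ρ : Polynomial ℕ) (h : l ≤ N) (G : List Bool → ℝ) :
    𝔼 z ∈ BL (ρ.eval N), G (z.take (ρ.eval l)) = 𝔼 z ∈ BL (ρ.eval l), G z := by
  have h1 := expect_BL_take (ρ.eval l) (ρ.eval N - ρ.eval l) G
  rwa [Nat.add_sub_cancel' (eval_mono ρ h)] at h1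

/-- the threshold, cut off -/
noncomputable def cut (q : Polynomial ℕ) (θ : ℕ → ℝ) (l : ℕ) : ℝ :=
  max (-(((q.eval l : ℕ) : ℝ) + 2)) (min (θ l) (((q.eval l : ℕ) : ℝ) + 1))

theorem cut_sq (q : Polynomial ℕ) (θ : ℕ → ℝ) {l N : ℕ} (h : l ≤ N) :
    cut q θ l ^ 2 ≤ (((q.eval N : ℕ) : ℝ) + 2) ^ 2 := by
  have h0 : ((q.eval l : ℕ) : ℝ) ≤ ((q.eval N : ℕ) : ℝ) := by exact_mod_cast eval_mono q h
  have hq : (0 : ℝ) ≤ ((q.eval l : ℕ) : ℝ) := Nat.cast_nonneg _
  apply sq_le_sq'
  · refine le_trans ?_ (le_max_left _ _)
    linarith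
  · refine max_le (by linarith) ((min_le_right _ _).trans (by linarith))

/-- the weights -/
noncomputable def wt (ρ q : Polynomial ℕ) (w : ℕ → List Bool → ℝ) (θ : ℕ → ℝ) (N : ℕ)
    (g b z : List Bool) : ℝ :=
  if valB g ≤ N then
    (if b = [true] then -(2 * 2 ^ N.size * cut q θ (valB g))
      else 2 * 2 ^ N.size * w (valB g) (z.take (ρ.eval (valB g))))
  else 0

/-- the feature -/
def ft (ρ : Polynomial ℕ) (V : List Bool → List Bool) (a : List Bool × List Unit × List Bool) :
    Bool :=
  decide (valB (a.2.2.take a.2.1.length.size) = a.1.length) &&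
    (decide ((a.2.2.drop a.2.1.length).take 1 = [true]) ||
      decide (V (pairBits a.1 (((a.2.2.drop a.2.1.length).drop 1).take (ρ.eval a.1.length))) =
        [true]))

theorem ft_poly {ρ : Polynomial ℕ} {V : List Bool → List Bool} (hV : Poly V) :
    Poly (ft ρ V) := by
  have e0 : Poly (fun q : List Bool × List Unit × List Bool => q) := NPC.Poly.id
  have ex := NPC.Poly.fst e0
  have eu := NPC.Poly.fst (NPC.Poly.snd e0)
  have er := NPC.Poly.snd (NPC.Poly.snd e0)
  have eN : UPoly (fun q : List Bool × List Unit × List Bool => q.2.1.length) := UPoly.length eu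
  have el : UPoly (fun q : List Bool × List Unit × List Bool => q.1.length) := UPoly.length ex
  have ed := drop_poly' er eN.toPoly
  refine NPC.Poly.and (NPC.Poly.decide_eq (NPC.Poly.valBits (take_poly' er (size_upoly eN).toPoly))
    el.toPoly) (NPC.Poly.or (NPC.Poly.decide_eq (take_poly' ed (NPC.Poly.const 1))
    (NPC.Poly.const [true])) (NPC.Poly.decide_eq (hV.comp (poly_pairBits ex
    (take_poly' (drop_poly' ed (NPC.Poly.const 1)) (UPoly.eval el ρ).toPoly)))
    (NPC.Poly.const [true])))

theorem t2 : S2 := by
  classical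
  intro L hL
  obtain ⟨V, ρ, q, w, θ, hV, hw, hL⟩ := hL
  have hw' : ∀ n : ℕ, 𝔼 r ∈ BL (ρ.eval n), w n r ^ 2 ≤ ((q.eval n : ℕ) : ℝ) := by
    intro n
    rw [← mean_eq]
    exact hw n
  refine ⟨ft ρ V, Polynomial.X + (1 + ρ), 2 * (2 * Polynomial.X + 1) ^ 2 * ((q + 2) ^ 2 + q),
    fun N r => wt ρ q w θ N (r.take N.size) ((r.drop N).take 1) ((r.drop N).drop 1),
    ft_poly (PIso.poly_iff.2 hV), ?_, ?_⟩
  · -- the mean square
    intro N
    have hN : (Polynomial.X + (1 + ρ)).eval N = N + (1 + ρ.eval N) := by simp
    rw [hN, expect_parts N (ρ.eval N) fun g b z => wt ρ q w θ N g b z ^ 2]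
    have h2t : (2 : ℝ) ^ N.size ≤ 2 * N + 1 := by exact_mod_cast two_pow_size_le N
    have h2p : (0 : ℝ) < 2 ^ N.size := by positivity
    have h2s : ((2 : ℝ) ^ N.size) ^ 2 ≤ (2 * N + 1) ^ 2 := by
      apply pow_le_pow_left₀ h2p.le h2t
    have hq0 : (0 : ℝ) ≤ ((q.eval N : ℕ) : ℝ) := Nat.cast_nonneg _
    have hb : 2 * ((2 : ℝ) ^ N.size) ^ 2 * ((((q.eval N : ℕ) : ℝ) + 2) ^ 2 + ((q.eval N : ℕ) : ℝ)) ≤
        (((2 * (2 * Polynomial.X + 1) ^ 2 * ((q + 2) ^ 2 + q)).eval N : ℕ) : ℝ) := by
      have : (((2 * (2 * Polynomial.X + 1) ^ 2 * ((q + 2) ^ 2 + q)).eval N : ℕ) : ℝ) =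
          2 * (2 * (N : ℝ) + 1) ^ 2 * ((((q.eval N : ℕ) : ℝ) + 2) ^ 2 + ((q.eval N : ℕ) : ℝ)) := by
        simp only [Polynomial.eval_mul, Polynomial.eval_add, Polynomial.eval_pow,
          Polynomial.eval_X, Polynomial.eval_one, Polynomial.eval_ofNat]
        push_cast
        ring
      rw [this]
      gcongr
    refine le_trans ?_ hb
    refine expect_le (BL_nonempty _) fun g _ => ?_
    by_cases hg : valB g ≤ N
    · have e1 : 𝔼 z ∈ BL (ρ.eval N), wt ρ q w θ N g [true] z ^ 2 =
          4 * ((2 : ℝ) ^ N.size) ^ 2 * cut q θ (valB g) ^ 2 := by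
        rw [← expect_const (BL_nonempty (ρ.eval N)) (4 * ((2 : ℝ) ^ N.size) ^ 2 * cut q θ (valB g) ^ 2)]
        refine expect_congr rfl fun z _ => ?_
        rw [wt, if_pos hg, if_pos rfl]
        ring
      have e2 : 𝔼 z ∈ BL (ρ.eval N), wt ρ q w θ N g [false] z ^ 2 =
          4 * ((2 : ℝ) ^ N.size) ^ 2 * 𝔼 z ∈ BL (ρ.eval (valB g)), w (valB g) z ^ 2 := by
        rw [← expect_take_le ρ hg fun z => w (valB g) z ^ 2, mul_expect]
        refine expect_congr rfl fun z _ => ?_
        rw [wt, if_pos hg, if_neg (by simp)]
        ring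
      rw [e1, e2]
      have h3 := cut_sq q θ hg
      have h4 := hw' (valB g)
      have h5 : ((q.eval (valB g) : ℕ) : ℝ) ≤ ((q.eval N : ℕ) : ℝ) := by
        exact_mod_cast eval_mono q hg
      have h6 : 4 * ((2 : ℝ) ^ N.size) ^ 2 * cut q θ (valB g) ^ 2 ≤
          4 * ((2 : ℝ) ^ N.size) ^ 2 * (((q.eval N : ℕ) : ℝ) + 2) ^ 2 := by gcongr
      have h7 : 4 * ((2 : ℝ) ^ N.size) ^ 2 * 𝔼 z ∈ BL (ρ.eval (valB g)), w (valB g) z ^ 2 ≤
          4 * ((2 : ℝ) ^ N.size) ^ 2 * ((q.eval N : ℕ) : ℝ) := by
        have := h4.trans h5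
        gcongr
      linarith
    · have e1 : ∀ b : List Bool, 𝔼 z ∈ BL (ρ.eval N), wt ρ q w θ N g b z ^ 2 = 0 := by
        intro b
        have : ∀ z, wt ρ q w θ N g b z ^ 2 = 0 := fun z => by
          rw [wt, if_neg hg]
          simp
        rw [expect_congr rfl fun z _ => this z, expect_const_zero]
      rw [e1, e1]
      have : (0 : ℝ) ≤ 2 * ((2 : ℝ) ^ N.size) ^ 2 *
        ((((q.eval N : ℕ) : ℝ) + 2) ^ 2 + ((q.eval N : ℕ) : ℝ)) := by positivity
      linarith
  · intro N x hx
    have hN : (Polynomial.X + (1 + ρ)).eval N = N + (1 + ρ.eval N) := by simp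
    -- the expectation
    set E := 𝔼 z ∈ BL (ρ.eval x.length),
      (if V (pairBits x z) = [true] then w x.length z else 0) with hE
    have key : 𝔼 r ∈ BL ((Polynomial.X + (1 + ρ)).eval N),
        (if ft ρ V (x, List.replicate N (), r) = true then
          wt ρ q w θ N (r.take N.size) ((r.drop N).take 1) ((r.drop N).drop 1) else 0) =
        E - cut q θ x.length := by
      have hK := expect_parts N (ρ.eval N) fun g b z => if valB g = x.length then
        (if b = [true] then -(2 * 2 ^ N.size * cut q θ x.length)
          else if V (pairBits x (z.take (ρ.eval x.length))) = [true] then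
            2 * 2 ^ N.size * w x.length (z.take (ρ.eval x.length)) else 0) else 0
      have h1 : ∀ r : List Bool, (if ft ρ V (x, List.replicate N (), r) = true then
          wt ρ q w θ N (r.take N.size) ((r.drop N).take 1) ((r.drop N).drop 1) else 0) =
          (if valB (r.take N.size) = x.length then
          (if (r.drop N).take 1 = [true] then -(2 * 2 ^ N.size * cut q θ x.length)
          else if V (pairBits x (((r.drop N).drop 1).take (ρ.eval x.length))) = [true] then
            2 * 2 ^ N.size * w x.length (((r.drop N).drop 1).take (ρ.eval x.length)) else 0)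
            else 0) := by
        intro r
        unfold ft wt
        simp only [List.length_replicate, Bool.and_eq_true, Bool.or_eq_true, decide_eq_true_eq]
        by_cases c1 : valB (r.take N.size) = x.length
        · rw [c1]
          by_cases c2 : (r.drop N).take 1 = [true]
          · simp [c2, hx]
          · by_cases c3 : V (pairBits x (((r.drop N).drop 1).take (ρ.eval x.length))) = [true]
            · rw [if_pos ⟨rfl, Or.inr c3⟩, if_pos hx, if_neg c2, if_pos rfl, if_neg c2, if_pos c3]
            · rw [if_neg (by tauto), if_pos rfl, if_neg c2, if_neg c3]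
        · rw [if_neg (by tauto), if_neg c1]
      rw [hN, expect_congr rfl fun r _ => h1 r, hK]
      have h2 : ∀ g : List Bool, (𝔼 z ∈ BL (ρ.eval N), (if valB g = x.length then
        (if [true] = [true] then -(2 * 2 ^ N.size * cut q θ x.length)
          else if V (pairBits x (z.take (ρ.eval x.length))) = [true] then
            2 * 2 ^ N.size * w x.length (z.take (ρ.eval x.length)) else 0) else 0) +
          𝔼 z ∈ BL (ρ.eval N), (if valB g = x.length then
        (if [false] = [true] then -(2 * 2 ^ N.size * cut q θ x.length)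
          else if V (pairBits x (z.take (ρ.eval x.length))) = [true] then
            2 * 2 ^ N.size * w x.length (z.take (ρ.eval x.length)) else 0) else 0)) / 2 =
          if valB g = x.length then 2 ^ N.size * (E - cut q θ x.length) else 0 := by
        intro g
        by_cases c1 : valB g = x.length
        · rw [if_pos c1]
          have e1 : 𝔼 z ∈ BL (ρ.eval N), (if valB g = x.length then
            (if [true] = [true] then -(2 * 2 ^ N.size * cut q θ x.length)
              else if V (pairBits x (z.take (ρ.eval x.length))) = [true] then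
                2 * 2 ^ N.size * w x.length (z.take (ρ.eval x.length)) else 0) else (0 : ℝ)) =
                -(2 * 2 ^ N.size * cut q θ x.length) := by
            rw [expect_congr rfl fun z _ => if_pos c1, expect_congr rfl fun z _ => if_pos rfl,
              expect_const (BL_nonempty _)]
          have e2 : 𝔼 z ∈ BL (ρ.eval N), (if valB g = x.length then
            (if [false] = [true] then -(2 * 2 ^ N.size * cut q θ x.length)
              else if V (pairBits x (z.take (ρ.eval x.length))) = [true] then
                2 * 2 ^ N.size * w x.length (z.take (ρ.eval x.length)) else 0) else (0 : ℝ)) =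
                2 * 2 ^ N.size * E := by
            rw [hE, ← expect_take_le ρ hx fun z =>
              (if V (pairBits x z) = [true] then w x.length z else 0), mul_expect]
            refine expect_congr rfl fun z _ => ?_
            rw [if_pos c1, if_neg (by simp), mul_ite, mul_zero]
          rw [e1, e2]
          ring
        · rw [if_neg c1]
          simp only [if_neg c1]
          rw [expect_const_zero]
          norm_num
      rw [expect_congr rfl fun g _ => h2 g, expect_val _ _ _ (lt_of_le_of_lt hx ?_)]
      · have : (2 : ℝ) ^ N.size ≠ 0 := by positivity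
        field_simp
      · exact Nat.lt_size_self N
    -- the size of the expectation
    have hEle : |E| ≤ ((q.eval x.length : ℕ) : ℝ) + 1 := by
      have h1 : |E| ≤ 𝔼 z ∈ BL (ρ.eval x.length), (w x.length z ^ 2 + 1) := by
        rw [hE]
        refine (abs_expect_le _ _).trans (expect_le_expect fun z _ => ?_)
        split_ifs
        · rw [abs_le]
          constructor <;> nlinarith [sq_nonneg (w x.length z + 1), sq_nonneg (w x.length z - 1)]
        · rw [abs_zero]
          positivity
      rw [expect_add_distrib, expect_const (BL_nonempty _)] at h1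
      have := hw' x.length
      linarith
    rw [abs_le] at hEle
    have hLx := hL x
    rw [mean_eq] at hLx
    have hEE : 𝔼 r ∈ BL (ρ.eval x.length),
        (if V (pairBits x r) = [true] then w x.length r else 0) = E := rfl
    constructor
    · intro hxL
      have h1 := hLx.1 hxL
      have h2 : θ x.length + 1 ≤ E := by
        convert h1
      rw [key]
      have h3 : cut q θ x.length ≤ E - 1 := by
        refine max_le (by linarith [hEle.1]) ((min_le_left _ _).trans (by linarith))
      linarith
    · intro hxL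
      have h1 := hLx.2 hxL
      have h2 : E ≤ θ x.length := by
        convert h1
      rw [key]
      have h3 : E ≤ cut q θ x.length := (le_min h2 (by linarith [hEle.2])).trans (le_max_right _ _)
      linarith

end Pool.Agent.Helper24.CA2
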